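import Mathlib

set_option autoImplicit false

namespace Pool.Agent.H71.Sep

open Finset

/-- `L x c q = ∑ c_i x^i + q x^D`. -/
noncomputable def L {R : Type*} [CommRing R] {D : ℕ} (x : R) (c : Fin D → ℤ) (q : ℤ) : R :=
  ∑ i : Fin D, (c i : R) * x ^ (i : ℕ) + (q : R) * x ^ D

lemma L_sub {R : Type*} [CommRing R] {D : ℕ} (x : R) (c c' : Fin D → ℤ) (q q' : ℤ) :
    L x (c - c') (q - q') = L x c q - L x c' q' := by
  unfold L
  simp only [Pi.sub_apply, Int.cast_sub, sub_mul, Finset.sum_sub_distrib]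
  ring

lemma L_add {R : Type*} [CommRing R] {D : ℕ} (x : R) (c c' : Fin D → ℤ) (q q' : ℤ) :
    L x (c + c') (q + q') = L x c q + L x c' q' := by
  unfold L
  simp only [Pi.add_apply, Int.cast_add, add_mul, Finset.sum_add_distrib]
  ring

lemma L_smul {R : Type*} [CommRing R] {D : ℕ} (x : R) (a : ℤ) (c : Fin D → ℤ) (q : ℤ) :
    L x (a • c) (a * q) = (a : R) * L x c q := by
  unfold L
  simp only [Pi.smul_apply, smul_eq_mul, Int.cast_mul, mul_add, Finset.mul_sum, mul_assoc]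

lemma digits {B : ℤ} (hB : 0 < B) : ∀ {D : ℕ} (c : Fin D → ℤ) (q : ℤ),
    (∀ i, |c i| < B) → L B c q = 0 → c = 0 ∧ q = 0 := by
  intro D
  induction D with
  | zero =>
    intro c q _ h
    simp [L] at h
    exact ⟨funext fun i => i.elim0, h⟩
  | succ D ih =>
    intro c q hc h
    have h1 : c 0 + B * L B (fun i : Fin D => c i.succ) q = 0 := by
      rw [← h]
      unfold L
      rw [Fin.sum_univ_succ, mul_add, Finset.mul_sum]
      simp only [Int.cast_id, Fin.val_zero, pow_zero, mul_one, Fin.val_succ]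
      have : ∀ i : Fin D, B * (c i.succ * B ^ (i : ℕ)) = c i.succ * B ^ ((i : ℕ) + 1) := by
        intro i; ring
      simp only [this]
      ring
    have h2 : B ∣ c 0 := by
      refine ⟨-(L B (fun i : Fin D => c i.succ) q), ?_⟩
      linarith
    have h3 : c 0 = 0 := Int.eq_zero_of_abs_lt_dvd h2 (hc 0)
    have h4 : L B (fun i : Fin D => c i.succ) q = 0 := by
      rw [h3, zero_add] at h1
      rcases mul_eq_zero.mp h1 with h | h
      · omega
      · exact h
    obtain ⟨h5, h6⟩ := ih _ q (fun i => hc i.succ) h4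
    refine ⟨?_, h6⟩
    funext i
    refine Fin.cases ?_ ?_ i
    · simpa using h3
    · intro j
      simpa using congrFun h5 j

lemma trans_indep {s : ℝ} (hs : Transcendental ℤ s) {D : ℕ} (c : Fin D → ℤ) (q : ℤ)
    (h : L s c q = 0) : c = 0 ∧ q = 0 := by
  classical
  set p : Polynomial ℤ := ∑ i : Fin D, Polynomial.C (c i) * Polynomial.X ^ (i : ℕ) +
    Polynomial.C q * Polynomial.X ^ D with hp
  have h1 : Polynomial.aeval s p = 0 := by
    rw [hp, map_add, map_sum, ← h]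
    unfold L
    simp
  have h2 : p = 0 := by
    by_contra hne
    exact hs ⟨p, hne, h1⟩
  have hcoef : ∀ n, p.coeff n = (∑ i : Fin D, if n = (i : ℕ) then c i else 0) +
      (if n = D then q else 0) := by
    intro n
    rw [hp, Polynomial.coeff_add, Polynomial.finsetSum_coeff]
    simp only [Polynomial.coeff_C_mul, Polynomial.coeff_X_pow, mul_ite, mul_one, mul_zero]
  constructor
  · funext i
    have := hcoef (i : ℕ)
    rw [h2] at this
    have hne : (i : ℕ) ≠ D := i.2.ne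
    simp only [Polynomial.coeff_zero, hne, if_false, add_zero] at this
    rw [Finset.sum_eq_single i] at this
    · simpa using this.symm
    · intro j _ hj
      rw [if_neg]
      intro h
      exact hj (Fin.ext h.symm)
    · simp
  · have := hcoef D
    rw [h2] at this
    simp only [Polynomial.coeff_zero, if_true] at this
    rw [Finset.sum_eq_zero] at this
    · simpa using this.symm
    · intro j _
      rw [if_neg]
      exact j.2.ne'

/-- sum of squares -/
def sq {D : ℕ} (v : Fin D → ℤ) : ℤ := ∑ i, v i ^ 2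

lemma paraboloid {D : ℕ} (y z w : Fin D → ℤ) (a b : ℤ)
    (h1 : a • (z - y) = b • (w - y)) (h2 : a * (sq z - sq y) = b * (sq w - sq y))
    (hyz : y ≠ z) (hyw : y ≠ w) (hzw : z ≠ w) : a = 0 ∧ b = 0 := by
  -- u = z - y, v = w - y
  have e1 : ∀ i, a * (z i - y i) = b * (w i - y i) := fun i => by
    have := congrFun h1 i
    simpa using this
  have e2 : a * ∑ i, (z i - y i) ^ 2 = b * ∑ i, (w i - y i) ^ 2 := by
    have : ∀ v : Fin D → ℤ, sq v - sq y = ∑ i, (v i - y i) ^ 2 + ∑ i, 2 * y i * (v i - y i) := by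
      intro v
      unfold sq
      rw [← Finset.sum_sub_distrib, ← Finset.sum_add_distrib]
      refine Finset.sum_congr rfl fun i _ => ?_
      ring
    rw [this z, this w, mul_add, mul_add] at h2
    have h3 : a * ∑ i, 2 * y i * (z i - y i) = b * ∑ i, 2 * y i * (w i - y i) := by
      rw [Finset.mul_sum, Finset.mul_sum]
      refine Finset.sum_congr rfl fun i _ => ?_
      linear_combination (2 * y i) * e1 i
    linarith
  have e3 : a ^ 2 * ∑ i, (z i - y i) ^ 2 = b ^ 2 * ∑ i, (w i - y i) ^ 2 := by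
    rw [Finset.mul_sum, Finset.mul_sum]
    refine Finset.sum_congr rfl fun i _ => ?_
    have := e1 i
    calc a ^ 2 * (z i - y i) ^ 2 = (a * (z i - y i)) ^ 2 := by ring
      _ = (b * (w i - y i)) ^ 2 := by rw [this]
      _ = _ := by ring
  have hv : 0 < ∑ i, (w i - y i) ^ 2 := by
    obtain ⟨i, hi⟩ := Function.ne_iff.mp hyw
    refine Finset.sum_pos' (fun i _ => sq_nonneg _) ⟨i, Finset.mem_univ i, ?_⟩
    have : w i - y i ≠ 0 := sub_ne_zero.mpr (Ne.symm hi)
    positivity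
  have e4 : b * (a - b) * ∑ i, (w i - y i) ^ 2 = 0 := by
    have : a * (a * ∑ i, (z i - y i) ^ 2) = a * (b * ∑ i, (w i - y i) ^ 2) := by rw [e2]
    linear_combination e3 - this
  have e5 : b * (a - b) = 0 := by
    rcases mul_eq_zero.mp e4 with h | h
    · exact h
    · exact absurd h hv.ne'
  rcases mul_eq_zero.mp e5 with hb | hab
  · subst hb
    refine ⟨?_, rfl⟩
    obtain ⟨i, hi⟩ := Function.ne_iff.mp hyz
    have := e1 i
    rw [zero_mul] at this
    rcases mul_eq_zero.mp this with h | h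
    · exact h
    · exact absurd (sub_eq_zero.mp h).symm hi
  · have hab' : a = b := by linarith
    subst hab'
    obtain ⟨i, hi⟩ := Function.ne_iff.mp hzw
    have := e1 i
    have h6 : a * (z i - w i) = 0 := by linear_combination this
    rcases mul_eq_zero.mp h6 with h | h
    · exact ⟨h, h⟩
    · exact absurd (sub_eq_zero.mp h) hi


/-! ### The concyclicity algebra -/

lemma conc_algebra (T1 T2 T3 H1 H2 H3 : ℝ) (h1 : T1 ≠ 0) (h2 : T2 ≠ 0) (h3 : T3 ≠ 0)
    (h12 : T1 ≠ T2) (h13 : T1 ≠ T3) (h23 : T2 ≠ T3)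
    (hC : T1 * H2 - T2 * H1 ≠ 0)
    (hD1 : T1 ^ 2 * (T2 * H3 - T3 * H2) - T2 ^ 2 * (T1 * H3 - T3 * H1)
      + T3 ^ 2 * (T1 * H2 - T2 * H1) = 0)
    (hD2 : H1 ^ 2 * (T2 * H3 - T3 * H2) - H2 ^ 2 * (T1 * H3 - T3 * H1)
      + H3 ^ 2 * (T1 * H2 - T2 * H1) = 0) :
    (2 * T2 - (T1 + T2 + T3)) * T2 * H1 = (2 * T1 - (T1 + T2 + T3)) * T1 * H2 := by
  obtain ⟨A, hA⟩ : ∃ A, A * (T1 - T2) = H1 / T1 - H2 / T2 :=
    ⟨(H1 / T1 - H2 / T2) / (T1 - T2), by field_simp [sub_ne_zero.mpr h12]⟩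
  obtain ⟨M, hM⟩ : ∃ M, M = H1 / T1 - A * T1 := ⟨_, rfl⟩
  have e1 : H1 = T1 * (A * T1 + M) := by
    rw [hM]; field_simp; ring
  have e2 : H2 = T2 * (A * T2 + M) := by
    have : A * T2 + M = H2 / T2 := by
      rw [hM]; linear_combination -hA
    rw [this]; field_simp
  have e3 : H3 = T3 * (A * T3 + M) := by
    have hne : T1 * T2 * (T1 - T2) ≠ 0 :=
      mul_ne_zero (mul_ne_zero h1 h2) (sub_ne_zero.mpr h12)
    have : T1 * T2 * (T1 - T2) * (H3 - T3 * (A * T3 + M)) = 0 := by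
      rw [e1, e2] at hD1
      linear_combination hD1
    rcases mul_eq_zero.mp this with h | h
    · exact absurd h hne
    · linarith
  have hA0 : A ≠ 0 := by
    rintro rfl
    apply hC
    rw [e1, e2]; ring
  have hprod : (T1 * T2 * T3 * A ^ 2 * ((T1 - T2) * (T2 - T3) * (T1 - T3))) *
      (A * (T1 + T2 + T3) + 2 * M) = 0 := by
    rw [e1, e2, e3] at hD2
    linear_combination -hD2
  have hne : T1 * T2 * T3 * A ^ 2 * ((T1 - T2) * (T2 - T3) * (T1 - T3)) ≠ 0 := by
    have := sub_ne_zero.mpr h12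
    have := sub_ne_zero.mpr h13
    have := sub_ne_zero.mpr h23
    positivity
  have hz : A * (T1 + T2 + T3) + 2 * M = 0 := by
    rcases mul_eq_zero.mp hprod with h | h
    · exact absurd h hne
    · exact h
  rw [e1, e2]
  linear_combination T1 * T2 * (T2 - T1) * hz

/-! ### The configuration -/

section config

variable {D k : ℕ}

/-- integer vector of `y` -/
def vec (y : Fin D → Fin k) : Fin D → ℤ := fun i => ((y i : ℕ) : ℤ)

lemma vec_injective : Function.Injective (vec : (Fin D → Fin k) → _) := by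
  intro y z h
  funext i
  have := congrFun h i
  simp only [vec] at this
  exact Fin.ext (by exact_mod_cast this)

/-- first coordinate (an integer) -/
noncomputable def tt (y : Fin D → Fin k) : ℤ := L (2 * (k : ℤ)) (vec y) (sq (vec y))

/-- second coordinate -/
noncomputable def hh (s : ℝ) (y : Fin D → Fin k) : ℝ := L s (vec y) (sq (vec y))

lemma vec_bound (y : Fin D → Fin k) (i : Fin D) : 0 ≤ vec y i ∧ vec y i < k := by
  constructor
  · simp [vec]
  · simp [vec]

lemma pos_k (y : Fin D → Fin k) (hD : 0 < D) : 0 < k := (y ⟨0, hD⟩).pos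

lemma diff_of_tt_eq (hk : 0 < k) (y z y' z' : Fin D → Fin k) (h : tt y - tt z = tt y' - tt z') :
    vec y - vec z = vec y' - vec z' ∧
      sq (vec y) - sq (vec z) = sq (vec y') - sq (vec z') := by
  have hB : (0 : ℤ) < 2 * k := by positivity
  have h0 : L (2 * (k : ℤ)) ((vec y - vec z) - (vec y' - vec z'))
      ((sq (vec y) - sq (vec z)) - (sq (vec y') - sq (vec z'))) = 0 := by
    rw [L_sub, L_sub, L_sub]
    unfold tt at h
    linarith
  obtain ⟨h1, h2⟩ := digits hB _ _ (fun i => by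
    have a1 := vec_bound y i
    have a2 := vec_bound z i
    have a3 := vec_bound y' i
    have a4 := vec_bound z' i
    simp only [Pi.sub_apply]
    rw [abs_lt]
    constructor <;> omega) h0
  exact ⟨sub_eq_zero.mp h1, sub_eq_zero.mp h2⟩

lemma hh_sub (s : ℝ) (y z : Fin D → Fin k) :
    hh s y - hh s z = L s (vec y - vec z) (sq (vec y) - sq (vec z)) := by
  rw [L_sub]; rfl

lemma hh_diff_of_tt_eq (hk : 0 < k) (s : ℝ) (y z y' z' : Fin D → Fin k)
    (h : tt y - tt z = tt y' - tt z') : hh s y - hh s z = hh s y' - hh s z' := by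
  obtain ⟨h1, h2⟩ := diff_of_tt_eq hk y z y' z' h
  rw [hh_sub, hh_sub, h1, h2]

lemma tt_injective (hk : 0 < k) : Function.Injective (tt : (Fin D → Fin k) → ℤ) := by
  intro y z h
  obtain ⟨h1, _⟩ := diff_of_tt_eq hk y z z z (by rw [h])
  rw [sub_self, sub_eq_zero] at h1
  exact vec_injective h1

lemma key {s : ℝ} (hs : Transcendental ℤ s) {y z w : Fin D → Fin k} (hyz : y ≠ z) (hyw : y ≠ w)
    (hzw : z ≠ w) (a b : ℤ)
    (h : (a : ℝ) * (hh s z - hh s y) = (b : ℝ) * (hh s w - hh s y)) : a = 0 ∧ b = 0 := by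
  have h0 : L s (a • (vec z - vec y) - b • (vec w - vec y))
      (a * (sq (vec z) - sq (vec y)) - b * (sq (vec w) - sq (vec y))) = 0 := by
    rw [L_sub, L_smul, L_smul, ← hh_sub, ← hh_sub, h, sub_self]
  obtain ⟨h1, h2⟩ := trans_indep hs _ _ h0
  exact paraboloid (vec y) (vec z) (vec w) a b (sub_eq_zero.mp h1) (sub_eq_zero.mp h2)
    (vec_injective.ne hyz) (vec_injective.ne hyw) (vec_injective.ne hzw)

/-- determinant for collinearity -/
lemma coll_ne (hk : 0 < k) {s : ℝ} (hs : Transcendental ℤ s) {y z w : Fin D → Fin k}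
    (hyz : y ≠ z) (hyw : y ≠ w) (hzw : z ≠ w) :
    ((tt z : ℝ) - tt y) * (hh s w - hh s y) - ((tt w : ℝ) - tt y) * (hh s z - hh s y) ≠ 0 := by
  intro h
  have := key hs hyz hyw hzw (tt w - tt y) (tt z - tt y) (by push_cast; linarith)
  exact hyw (tt_injective hk (sub_eq_zero.mp this.1).symm)

/-- first determinant -/
noncomputable def d1 (s : ℝ) (x y z w : Fin D → Fin k) : ℝ :=
  let T1 : ℝ := tt x - tt w
  let T2 : ℝ := tt y - tt w
  let T3 : ℝ := tt z - tt w
  let H1 : ℝ := hh s x - hh s w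
  let H2 : ℝ := hh s y - hh s w
  let H3 : ℝ := hh s z - hh s w
  T1 ^ 2 * (T2 * H3 - T3 * H2) - T2 ^ 2 * (T1 * H3 - T3 * H1) + T3 ^ 2 * (T1 * H2 - T2 * H1)

/-- second determinant -/
noncomputable def d2 (s : ℝ) (x y z w : Fin D → Fin k) : ℝ :=
  let T1 : ℝ := tt x - tt w
  let T2 : ℝ := tt y - tt w
  let T3 : ℝ := tt z - tt w
  let H1 : ℝ := hh s x - hh s w
  let H2 : ℝ := hh s y - hh s w
  let H3 : ℝ := hh s z - hh s w
  H1 ^ 2 * (T2 * H3 - T3 * H2) - H2 ^ 2 * (T1 * H3 - T3 * H1) + H3 ^ 2 * (T1 * H2 - T2 * H1)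

lemma conc_ne (hk : 0 < k) {s : ℝ} (hs : Transcendental ℤ s) {x y z w : Fin D → Fin k}
    (hxy : x ≠ y) (hxz : x ≠ z) (hxw : x ≠ w) (hyz : y ≠ z) (hyw : y ≠ w) (hzw : z ≠ w) :
    ¬ (d1 s x y z w = 0 ∧ d2 s x y z w = 0) := by
  rintro ⟨h1, h2⟩
  have ne : ∀ {u v : Fin D → Fin k}, u ≠ v → (tt u : ℝ) - tt v ≠ 0 := by
    intro u v huv h
    apply huv
    apply tt_injective hk
    have := sub_eq_zero.mp h
    exact_mod_cast this
  have ne' : ∀ {u v : Fin D → Fin k}, u ≠ v → (tt u : ℝ) - tt w ≠ (tt v : ℝ) - tt w := by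
    intro u v huv h
    apply ne huv
    linarith
  have hC : ((tt x : ℝ) - tt w) * (hh s y - hh s w) - ((tt y : ℝ) - tt w) * (hh s x - hh s w) ≠ 0 :=
    coll_ne hk hs hxw.symm hyw.symm hxy
  have := conc_algebra _ _ _ _ _ _ (ne hxw) (ne hyw) (ne hzw) (ne' hxy) (ne' hxz) (ne' hyz) hC h1 h2
  have h3 := key hs hxw.symm hyw.symm hxy
    ((2 * (tt y - tt w) - ((tt x - tt w) + (tt y - tt w) + (tt z - tt w))) * (tt y - tt w))
    ((2 * (tt x - tt w) - ((tt x - tt w) + (tt y - tt w) + (tt z - tt w))) * (tt x - tt w))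
    (by push_cast; linarith)
  obtain ⟨h4, h5⟩ := h3
  have g1 : tt y - tt w ≠ 0 := fun h => hyw (tt_injective hk (sub_eq_zero.mp h))
  have g2 : tt x - tt w ≠ 0 := fun h => hxw (tt_injective hk (sub_eq_zero.mp h))
  rcases mul_eq_zero.mp h4 with h6 | h6
  · rcases mul_eq_zero.mp h5 with h7 | h7
    · apply hxy
      apply tt_injective hk
      linarith
    · exact g2 h7
  · exact g1 h6

end config

/-! ### Main geometric part -/

section main

open Filter Topology

variable {D k : ℕ}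

/-- the point of the plane attached to `y` -/
noncomputable def pt (s e : ℝ) (y : Fin D → Fin k) : EuclideanSpace ℝ (Fin 2) :=
  !₂[2 * (tt y : ℝ), e * hh s y]

lemma dist_pt (s e : ℝ) (y z : Fin D → Fin k) :
    dist (pt s e y) (pt s e z) =
      Real.sqrt ((2 * ((tt y : ℝ) - tt z)) ^ 2 + (e * (hh s y - hh s z)) ^ 2) := by
  rw [EuclideanSpace.dist_eq]
  congr 1
  simp only [pt, Fin.sum_univ_two, Real.dist_eq, sq_abs]
  simp
  ring

lemma not_collinear (hk : 0 < k) {s : ℝ} (hs : Transcendental ℤ s) {e : ℝ} (he : e ≠ 0)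
    {y z w : Fin D → Fin k} (hyz : y ≠ z) (hyw : y ≠ w) (hzw : z ≠ w) :
    ¬ Collinear ℝ ({pt s e y, pt s e z, pt s e w} : Set (EuclideanSpace ℝ (Fin 2))) := by
  intro hc
  rw [collinear_iff_of_mem (p₀ := pt s e y) (by simp)] at hc
  obtain ⟨v, hv⟩ := hc
  obtain ⟨r1, h1⟩ := hv (pt s e z) (by simp)
  obtain ⟨r2, h2⟩ := hv (pt s e w) (by simp)
  have a0 := congrArg (fun q : EuclideanSpace ℝ (Fin 2) => q 0) h1
  have a1 := congrArg (fun q : EuclideanSpace ℝ (Fin 2) => q 1) h1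
  have b0 := congrArg (fun q : EuclideanSpace ℝ (Fin 2) => q 0) h2
  have b1 := congrArg (fun q : EuclideanSpace ℝ (Fin 2) => q 1) h2
  simp [pt] at a0 a1 b0 b1
  apply coll_ne hk hs hyz hyw hzw
  have : 2 * e * (((tt z : ℝ) - tt y) * (hh s w - hh s y) -
      ((tt w : ℝ) - tt y) * (hh s z - hh s y)) = 0 := by
    have c0 : 2 * ((tt z : ℝ) - tt y) = r1 * v 0 := by linarith
    have c1 : e * (hh s z - hh s y) = r1 * v 1 := by linarith
    have c2 : 2 * ((tt w : ℝ) - tt y) = r2 * v 0 := by linarith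
    have c3 : e * (hh s w - hh s y) = r2 * v 1 := by linarith
    calc 2 * e * (((tt z : ℝ) - tt y) * (hh s w - hh s y) -
      ((tt w : ℝ) - tt y) * (hh s z - hh s y))
        = (2 * ((tt z : ℝ) - tt y)) * (e * (hh s w - hh s y)) -
          (2 * ((tt w : ℝ) - tt y)) * (e * (hh s z - hh s y)) := by ring
      _ = 0 := by rw [c0, c1, c2, c3]; ring
  rcases mul_eq_zero.mp this with h | h
  · exfalso
    apply he
    linarith
  · exact h

lemma not_concyclic {s e : ℝ} {x y z w : Fin D → Fin k} (he : e ≠ 0)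
    (hne : 4 * d1 s x y z w + e ^ 2 * d2 s x y z w ≠ 0) :
    ¬ EuclideanGeometry.Concyclic
      ({pt s e x, pt s e y, pt s e z, pt s e w} : Set (EuclideanSpace ℝ (Fin 2))) := by
  intro hc
  obtain ⟨c, r, hcr⟩ := hc.1
  have hx := hcr (pt s e x) (by simp)
  have hy := hcr (pt s e y) (by simp)
  have hz := hcr (pt s e z) (by simp)
  have hw := hcr (pt s e w) (by simp)
  have gen : ∀ y : Fin D → Fin k, dist (pt s e y) c = r →
      (2 * (tt y : ℝ) - c 0) ^ 2 + (e * hh s y - c 1) ^ 2 = r ^ 2 := by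
    intro y h
    rw [EuclideanSpace.dist_eq] at h
    simp only [pt, Fin.sum_univ_two, Real.dist_eq, sq_abs] at h
    rw [← h, Real.sq_sqrt (by positivity)]
    simp
  have gx := gen x hx
  have gy := gen y hy
  have gz := gen z hz
  have gw := gen w hw
  apply hne
  unfold d1 d2
  simp only
  -- the equation F_j = p T_j + q H_j
  set T1 : ℝ := tt x - tt w with hT1
  set T2 : ℝ := tt y - tt w with hT2
  set T3 : ℝ := tt z - tt w with hT3
  set H1 : ℝ := hh s x - hh s w with hH1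
  set H2 : ℝ := hh s y - hh s w with hH2
  set H3 : ℝ := hh s z - hh s w with hH3
  obtain ⟨p, hp⟩ : ∃ p : ℝ, p = 4 * c 0 - 8 * tt w := ⟨_, rfl⟩
  obtain ⟨q, hq⟩ : ∃ q : ℝ, q = 2 * e * c 1 - 2 * e ^ 2 * hh s w := ⟨_, rfl⟩
  have e1 : 4 * T1 ^ 2 + e ^ 2 * H1 ^ 2 = p * T1 + q * H1 := by
    rw [hp, hq, hT1, hH1]; linear_combination gx - gw
  have e2 : 4 * T2 ^ 2 + e ^ 2 * H2 ^ 2 = p * T2 + q * H2 := by
    rw [hp, hq, hT2, hH2]; linear_combination gy - gw
  have e3 : 4 * T3 ^ 2 + e ^ 2 * H3 ^ 2 = p * T3 + q * H3 := by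
    rw [hp, hq, hT3, hH3]; linear_combination gz - gw
  linear_combination (T2 * H3 - T3 * H2) * e1 - (T1 * H3 - T3 * H1) * e2 +
    (T1 * H2 - T2 * H1) * e3

/-- the real absolute difference of first coordinates is an integer -/
lemma dist_bounds (hk : 0 < k) {s e : ℝ} (he : 0 < e) {y z : Fin D → Fin k}
    (hsm : e * |hh s y - hh s z| ≤ 1) :
    2 * ((|tt y - tt z| : ℤ) : ℝ) ≤ dist (pt s e y) (pt s e z) ∧
      dist (pt s e y) (pt s e z) ≤ 2 * ((|tt y - tt z| : ℤ) : ℝ) + 1 := by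
  rw [dist_pt]
  have ha : ((|tt y - tt z| : ℤ) : ℝ) = |(tt y : ℝ) - tt z| := by push_cast; rfl
  rw [ha]
  set a : ℝ := (tt y : ℝ) - tt z
  set b : ℝ := hh s y - hh s z
  constructor
  · apply Real.le_sqrt_of_sq_le
    have : (2 * |a|) ^ 2 = (2 * a) ^ 2 := by rw [mul_pow, sq_abs, mul_pow]
    rw [this]
    nlinarith [sq_nonneg (e * b)]
  · rw [Real.sqrt_le_left (by positivity)]
    have h1 : (2 * a) ^ 2 = (2 * |a|) ^ 2 := by rw [mul_pow 2 (|a|), sq_abs, mul_pow]
    have h2 : (e * b) ^ 2 = (e * |b|) ^ 2 := by rw [mul_pow e (|b|), sq_abs, mul_pow]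
    rw [h1, h2]
    have h3 : 0 ≤ e * |b| := by positivity
    have h4 : (e * |b|) ^ 2 ≤ 1 := by nlinarith
    nlinarith [abs_nonneg a]

lemma tt_bounds (y : Fin D → Fin k) (hk : 0 < k) :
    0 ≤ tt y ∧ tt y ≤ (2 * (k : ℤ)) ^ D * (1 + D * k ^ 2) := by
  have hsq : sq (vec y) ≤ D * k ^ 2 := by
    unfold sq
    calc ∑ i, vec y i ^ 2 ≤ ∑ _i : Fin D, (k : ℤ) ^ 2 := by
          apply Finset.sum_le_sum
          intro i _
          have := vec_bound y i
          nlinarith
      _ = D * k ^ 2 := by simp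
  have hsq0 : 0 ≤ sq (vec y) := Finset.sum_nonneg fun i _ => sq_nonneg _
  have hgeo : ∀ (E : ℕ) (c : Fin E → ℤ), (∀ i, 0 ≤ c i ∧ c i < k) →
      0 ≤ ∑ i : Fin E, c i * (2 * (k : ℤ)) ^ (i : ℕ) ∧
      ∑ i : Fin E, c i * (2 * (k : ℤ)) ^ (i : ℕ) ≤ (2 * (k : ℤ)) ^ E := by
    intro E
    induction E with
    | zero => intro c _; simp
    | succ E ih =>
      intro c hc
      rw [Fin.sum_univ_castSucc]
      obtain ⟨i1, i2⟩ := ih (fun i => c i.castSucc) (fun i => hc _)
      simp only [Fin.val_castSucc, Fin.val_last] at *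
      have h1 := hc (Fin.last E)
      have hp : (0 : ℤ) < (2 * (k : ℤ)) ^ E := by positivity
      constructor
      · have := mul_nonneg h1.1 hp.le
        linarith
      · have : (c (Fin.last E) + 1) * (2 * (k : ℤ)) ^ E ≤ (k : ℤ) * (2 * (k : ℤ)) ^ E := by
          apply mul_le_mul_of_nonneg_right _ hp.le
          omega
        rw [pow_succ]
        nlinarith
  obtain ⟨g1, g2⟩ := hgeo D (vec y) (vec_bound y)
  have hp : (0 : ℤ) < (2 * (k : ℤ)) ^ D := by positivity
  unfold tt L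
  simp only [Int.cast_id]
  constructor
  · have := mul_nonneg hsq0 hp.le
    linarith
  · have := mul_le_mul_of_nonneg_right hsq hp.le
    nlinarith

theorem exists_config (D k : ℕ) (hk : 0 < k) :
    ∃ p : (Fin D → Fin k) → EuclideanSpace ℝ (Fin 2),
      (∀ x y z, x ≠ y → x ≠ z → y ≠ z →
        ¬ Collinear ℝ ({p x, p y, p z} : Set (EuclideanSpace ℝ (Fin 2)))) ∧
      (∀ x y z w, x ≠ y → x ≠ z → x ≠ w → y ≠ z → y ≠ w → z ≠ w →
        ¬ EuclideanGeometry.Concyclic
          ({p x, p y, p z, p w} : Set (EuclideanSpace ℝ (Fin 2)))) ∧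
      (∀ x y, x ≠ y → 1 ≤ dist (p x) (p y)) ∧
      (∀ x y z w, x ≠ y → z ≠ w → dist (p x) (p y) ≠ dist (p z) (p w) →
        1 ≤ |dist (p x) (p y) - dist (p z) (p w)|) ∧
      (∀ x y, dist (p x) (p y) ≤ 2 * ((2 * (k : ℝ)) ^ D * (1 + D * k ^ 2)) + 1) := by
  obtain ⟨s, hs⟩ : ∃ s : ℝ, Transcendental ℤ s :=
    ⟨_, transcendental_liouvilleNumber (m := 2) le_rfl⟩
  -- choose `e` small
  have hev1 : ∀ᶠ e in 𝓝[>] (0 : ℝ), ∀ y z : Fin D → Fin k, e * |hh s y - hh s z| ≤ 1 := by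
    rw [eventually_all]
    intro y
    rw [eventually_all]
    intro z
    have hcont : Tendsto (fun e : ℝ => e * |hh s y - hh s z|) (𝓝[>] (0 : ℝ)) (𝓝 0) := by
      have : Tendsto (fun e : ℝ => e * |hh s y - hh s z|) (𝓝 (0 : ℝ)) (𝓝 (0 * |hh s y - hh s z|)) :=
        (continuous_id.mul continuous_const).tendsto 0
      rw [zero_mul] at this
      exact this.mono_left nhdsWithin_le_nhds
    exact hcont.eventually (ge_mem_nhds one_pos)
  have hev2 : ∀ᶠ e in 𝓝[>] (0 : ℝ), ∀ x y z w : Fin D → Fin k,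
      x ≠ y → x ≠ z → x ≠ w → y ≠ z → y ≠ w → z ≠ w →
      4 * d1 s x y z w + e ^ 2 * d2 s x y z w ≠ 0 := by
    rw [eventually_all]; intro x
    rw [eventually_all]; intro y
    rw [eventually_all]; intro z
    rw [eventually_all]; intro w
    by_cases hdist : x ≠ y ∧ x ≠ z ∧ x ≠ w ∧ y ≠ z ∧ y ≠ w ∧ z ≠ w
    · obtain ⟨h1, h2, h3, h4, h5, h6⟩ := hdist
      have hcn := conc_ne hk hs h1 h2 h3 h4 h5 h6
      by_cases hd : d1 s x y z w = 0
      · have hd2 : d2 s x y z w ≠ 0 := fun h => hcn ⟨hd, h⟩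
        filter_upwards [self_mem_nhdsWithin] with e he _ _ _ _ _ _
        rw [hd, mul_zero, zero_add]
        have : e ≠ 0 := ne_of_gt he
        positivity
      · have hcont : Tendsto (fun e : ℝ => 4 * d1 s x y z w + e ^ 2 * d2 s x y z w)
            (𝓝[>] (0 : ℝ)) (𝓝 (4 * d1 s x y z w)) := by
          have : Tendsto (fun e : ℝ => 4 * d1 s x y z w + e ^ 2 * d2 s x y z w)
              (𝓝 (0 : ℝ)) (𝓝 (4 * d1 s x y z w + 0 ^ 2 * d2 s x y z w)) := by
            apply Continuous.tendsto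
            fun_prop
          simp only [ne_eq, OfNat.ofNat_ne_zero, not_false_eq_true, zero_pow, zero_mul,
            add_zero] at this
          exact this.mono_left nhdsWithin_le_nhds
        have h4 : 4 * d1 s x y z w ≠ 0 := by positivity
        filter_upwards [hcont.eventually_ne h4] with e he _ _ _ _ _ _
        exact he
    · refine Eventually.of_forall fun e h1 h2 h3 h4 h5 h6 => ?_
      exact absurd ⟨h1, h2, h3, h4, h5, h6⟩ hdist
  obtain ⟨e, ⟨he1, he2⟩, he3⟩ := ((hev1.and hev2).and self_mem_nhdsWithin).exists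
  have he : 0 < e := he3
  have tne : ∀ {x y : Fin D → Fin k}, x ≠ y → 1 ≤ |tt x - tt y| := by
    intro x y hxy
    have h : tt x - tt y ≠ 0 := fun h => hxy (tt_injective hk (sub_eq_zero.mp h))
    exact Int.one_le_abs h
  refine ⟨pt s e, ?_, ?_, ?_, ?_, ?_⟩
  · intro x y z hxy hxz hyz
    exact not_collinear hk hs he.ne' hxy hxz hyz
  · intro x y z w h1 h2 h3 h4 h5 h6
    exact not_concyclic he.ne' (he2 x y z w h1 h2 h3 h4 h5 h6)
  · intro x y hxy
    have h1 := (dist_bounds hk he (he1 x y)).1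
    have h2 : (1 : ℝ) ≤ ((|tt x - tt y| : ℤ) : ℝ) := by exact_mod_cast tne hxy
    linarith
  · intro x y z w _ _ hne
    have hxy := dist_bounds hk he (he1 x y)
    have hzw := dist_bounds hk he (he1 z w)
    by_cases habs : |tt x - tt y| = |tt z - tt w|
    · exfalso
      apply hne
      rw [dist_pt, dist_pt]
      congr 1
      rcases abs_eq_abs.mp habs with h | h
      · have h' := hh_diff_of_tt_eq hk s x y z w h
        have h'' : (tt x : ℝ) - tt y = tt z - tt w := by exact_mod_cast h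
        rw [h', h'']
      · have h0 : tt x - tt y = tt w - tt z := by linarith
        have h' := hh_diff_of_tt_eq hk s x y w z h0
        have h'' : (tt x : ℝ) - tt y = tt w - tt z := by exact_mod_cast h0
        rw [h', h'']
        ring
    · rcases lt_or_gt_of_ne habs with h | h
      · have h1 : |tt x - tt y| + 1 ≤ |tt z - tt w| := h
        have h2 : ((|tt x - tt y| : ℤ) : ℝ) + 1 ≤ ((|tt z - tt w| : ℤ) : ℝ) := by exact_mod_cast h1
        rw [abs_sub_comm]
        refine le_trans ?_ (le_abs_self _)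
        linarith [hxy.2, hzw.1]
      · have h1 : |tt z - tt w| + 1 ≤ |tt x - tt y| := h
        have h2 : ((|tt z - tt w| : ℤ) : ℝ) + 1 ≤ ((|tt x - tt y| : ℤ) : ℝ) := by exact_mod_cast h1
        refine le_trans ?_ (le_abs_self _)
        linarith [hxy.1, hzw.2]
  · intro x y
    have h1 := (dist_bounds hk he (he1 x y)).2
    have h2 : |tt x - tt y| ≤ (2 * (k : ℤ)) ^ D * (1 + D * k ^ 2) := by
      have hx := tt_bounds x hk
      have hy := tt_bounds y hk
      rw [abs_le]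
      constructor <;> linarith [hx.1, hx.2, hy.1, hy.2]
    have h3 : ((|tt x - tt y| : ℤ) : ℝ) ≤ (2 * (k : ℝ)) ^ D * (1 + D * k ^ 2) := by
      exact_mod_cast h2
    linarith

end main

/-- The quantitative form: `k ^ D` separated points in general position in a disc of
diameter `5 D 2^D k^(D+2)`. -/
theorem exists_config_fin (D k : ℕ) (hD : 0 < D) (hk : 0 < k) :
    ∃ p : Fin (k ^ D) → EuclideanSpace ℝ (Fin 2),
      (∀ i j l, i ≠ j → i ≠ l → j ≠ l →
        ¬ Collinear ℝ ({p i, p j, p l} : Set (EuclideanSpace ℝ (Fin 2)))) ∧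
      (∀ i j l m, i ≠ j → i ≠ l → i ≠ m → j ≠ l → j ≠ m → l ≠ m →
        ¬ EuclideanGeometry.Concyclic
          ({p i, p j, p l, p m} : Set (EuclideanSpace ℝ (Fin 2)))) ∧
      (∀ i j, i ≠ j → 1 ≤ dist (p i) (p j)) ∧
      (∀ i j l m, i ≠ j → l ≠ m → dist (p i) (p j) ≠ dist (p l) (p m) →
        1 ≤ |dist (p i) (p j) - dist (p l) (p m)|) ∧
      (∀ i j, dist (p i) (p j) ≤ 5 * D * 2 ^ D * (k : ℝ) ^ (D + 2)) := by
  obtain ⟨p, h1, h2, h3, h4, h5⟩ := exists_config D k hk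
  let e : Fin (k ^ D) ≃ (Fin D → Fin k) := finFunctionFinEquiv.symm
  refine ⟨fun i => p (e i), ?_, ?_, ?_, ?_, ?_⟩
  · intro i j l a b c
    exact h1 _ _ _ (e.injective.ne a) (e.injective.ne b) (e.injective.ne c)
  · intro i j l m a b c d f g
    exact h2 _ _ _ _ (e.injective.ne a) (e.injective.ne b) (e.injective.ne c)
      (e.injective.ne d) (e.injective.ne f) (e.injective.ne g)
  · intro i j a
    exact h3 _ _ (e.injective.ne a)
  · intro i j l m a b c
    exact h4 _ _ _ _ (e.injective.ne a) (e.injective.ne b) c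
  · intro i j
    refine (h5 (e i) (e j)).trans ?_
    have hk1 : (1 : ℝ) ≤ k := by exact_mod_cast hk
    have hD1 : (1 : ℝ) ≤ D := by exact_mod_cast hD
    have e1 : (2 * (k : ℝ)) ^ D = 2 ^ D * (k : ℝ) ^ D := mul_pow _ _ _
    have e2 : (k : ℝ) ^ (D + 2) = (k : ℝ) ^ D * (k : ℝ) ^ 2 := pow_add _ _ _
    have g1 : (1 : ℝ) ≤ 2 ^ D := one_le_pow₀ (by norm_num)
    have g2 : (1 : ℝ) ≤ (k : ℝ) ^ D := one_le_pow₀ hk1
    have g3 : (1 : ℝ) ≤ (k : ℝ) ^ 2 := one_le_pow₀ hk1
    have g4 : (1 : ℝ) ≤ D * (k : ℝ) ^ 2 := by nlinarith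
    have g5 : (1 : ℝ) ≤ 2 ^ D * (k : ℝ) ^ D := by nlinarith
    rw [e1, e2]
    have g6 : (1 : ℝ) ≤ (2 ^ D * (k : ℝ) ^ D) * (D * (k : ℝ) ^ 2) := by nlinarith
    have g7 : (2 ^ D * (k : ℝ) ^ D) * 1 ≤ (2 ^ D * (k : ℝ) ^ D) * (D * (k : ℝ) ^ 2) := by
      apply mul_le_mul_of_nonneg_left g4
      positivity
    nlinarith

end Pool.Agent.H71.Sep
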